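import Pool.Agent.X166.BDC

/-!
# The boundary-integral inequality for non-negative convex functions, all dimensions
-/

open MeasureTheory Set Metric
open scoped ENNReal

namespace Pool.Agent.Results.MP_e9cb08_gt.AllDimensions

/-- Euclidean space of dimension `k`. -/
abbrev Euc (k : ℕ) : Type := EuclideanSpace ℝ (Fin k)

/-- The normalising constant: the ratio of the Lebesgue measure and the k-dimensional Hausdorff
measure (defined with the k-th powers of diameters) of the unit ball in dimension `k`. -/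
noncomputable def normalization (k : ℕ) : ℝ≥0∞ :=
  volume (closedBall (0 : Euc k) 1) / μH[(k : ℝ)] (closedBall (0 : Euc k) 1)

/-- k-dimensional Hausdorff measure on Euclidean d-space, normalised so that it is Lebesgue measure
for `d = k`. -/
noncomputable def hausdorff (k : ℕ) {d : ℕ} : Measure (Euc d) :=
  normalization k • μH[(k : ℝ)]

/-- Sanity check: in dimension `k` the normalised measure is Lebesgue measure. -/
theorem hausdorff_eq_volume (k : ℕ) : (hausdorff k : Measure (Euc k)) = volume :=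
  Pool.Agent.X166.BD.haus_eq k

theorem minkowski {m : ℕ} (hm : 2 ≤ m) (a : Fin m → ℝ) :
    Real.sqrt (1 + ∑ i, a i ^ 2) ≤ ∑ i, Real.sqrt ((1 / (m : ℝ)) ^ 2 + a i ^ 2) := by
  have hm' : (2 : ℝ) ≤ m := by exact_mod_cast hm
  have hm0 : (0 : ℝ) < m := by linarith
  set κ : ℝ := 1 / (m : ℝ) with hκ
  have hκ0 : 0 < κ := by positivity
  have hκ1 : κ ≤ 1 := by rw [hκ, div_le_one hm0]; linarith
  have hmκ : (m : ℝ) * κ = 1 := by rw [hκ]; field_simp
  set d : Fin m → ℝ := fun i => Real.sqrt (κ ^ 2 + a i ^ 2) - κ with hd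
  have hd0 : ∀ i, 0 ≤ d i := fun i => by
    simp only [hd]
    have : κ ≤ Real.sqrt (κ ^ 2 + a i ^ 2) := Real.le_sqrt_of_sq_le (by nlinarith [sq_nonneg (a i)])
    linarith
  have hda : ∀ i, a i ^ 2 = 2 * κ * d i + d i ^ 2 := fun i => by
    have h1 : Real.sqrt (κ ^ 2 + a i ^ 2) = κ + d i := by simp only [hd]; ring
    have h2 : Real.sqrt (κ ^ 2 + a i ^ 2) ^ 2 = κ ^ 2 + a i ^ 2 := Real.sq_sqrt (by positivity)
    rw [h1] at h2
    nlinarith
  have hsum : ∑ i, Real.sqrt (κ ^ 2 + a i ^ 2) = 1 + ∑ i, d i := by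
    have : ∀ i, Real.sqrt (κ ^ 2 + a i ^ 2) = κ + d i := fun i => by simp only [hd]; ring
    simp_rw [this]
    rw [Finset.sum_add_distrib, Finset.sum_const, Finset.card_univ, Fintype.card_fin,
      nsmul_eq_mul, hmκ]
  rw [hsum]
  have hD0 : 0 ≤ ∑ i, d i := Finset.sum_nonneg fun i _ => hd0 i
  apply Real.sqrt_le_iff.2
  refine ⟨by linarith, ?_⟩
  have h3 : ∑ i, a i ^ 2 = 2 * κ * ∑ i, d i + ∑ i, d i ^ 2 := by
    simp_rw [hda]
    rw [Finset.sum_add_distrib, ← Finset.mul_sum]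
  have h4 : ∑ i, d i ^ 2 ≤ (∑ i, d i) ^ 2 :=
    Finset.sum_sq_le_sq_sum_of_nonneg fun i _ => hd0 i
  rw [h3]
  nlinarith [mul_le_mul_of_nonneg_right hκ1 hD0]

theorem gradient_le {m : ℕ} (hm : 2 ≤ m) (h : Euc m → ℝ) (z : Euc m) :
    Real.sqrt (1 + ‖gradient h z‖ ^ 2) ≤ ∑ i : Fin m, Real.sqrt ((1 / (m : ℝ)) ^ 2
      + (lineDeriv ℝ h z (EuclideanSpace.single i (1 : ℝ))) ^ 2) := by
  by_cases hd : DifferentiableAt ℝ h z
  · have h1 : ‖gradient h z‖ ^ 2
        = ∑ i, (lineDeriv ℝ h z (EuclideanSpace.single i (1 : ℝ))) ^ 2 := by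
      rw [EuclideanSpace.norm_sq_eq]
      refine Finset.sum_congr rfl fun i _ => ?_
      rw [Real.norm_eq_abs, sq_abs, hd.lineDeriv_eq_fderiv]
      congr 1
      have h2 : inner ℝ (gradient h z) (EuclideanSpace.single i (1 : ℝ))
          = fderiv ℝ h z (EuclideanSpace.single i (1 : ℝ)) := by
        unfold gradient
        rw [InnerProductSpace.toDual_symm_apply]
      rw [← h2, EuclideanSpace.inner_single_right]
      simp
    rw [h1]
    exact minkowski hm _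
  · have h1 : gradient h z = 0 := gradient_eq_zero_of_not_differentiableAt hd
    rw [h1, norm_zero]
    have h2 := minkowski hm (fun i => lineDeriv ℝ h z (EuclideanSpace.single i (1 : ℝ)))
    refine le_trans ?_ h2
    apply Real.sqrt_le_sqrt
    have : 0 ≤ ∑ i : Fin m, (lineDeriv ℝ h z (EuclideanSpace.single i (1 : ℝ))) ^ 2 :=
      Finset.sum_nonneg fun i _ => sq_nonneg _
    linarith

/-- For all `n ≥ 3`, all convex `h : ℝ^(n-1) → [0, ∞)` and all compact convex `C ⊆ ℝ^(n-1)`,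
`∫_{∂C} (|y|² + h(y)²) dℋ^{n-2}(y) ≥ 2 / (n - 1) ∫_C h √(1 + |∇h|²) dz`. -/
theorem result : ∀ n : ℕ, 3 ≤ n → ∀ h : Euc (n - 1) → ℝ, ConvexOn ℝ univ h → (∀ y, 0 ≤ h y) →
    ∀ C : Set (Euc (n - 1)), IsCompact C → Convex ℝ C →
    ENNReal.ofReal (2 / ((n : ℝ) - 1)) *
        ∫⁻ z in C, ENNReal.ofReal (h z * Real.sqrt (1 + ‖gradient h z‖ ^ 2))
      ≤ ∫⁻ y in frontier C, ENNReal.ofReal (‖y‖ ^ 2 + h y ^ 2) ∂(hausdorff (n - 2)) := by
  intro n hn
  obtain ⟨k, rfl⟩ : ∃ k, n = k + 2 := ⟨n - 2, by omega⟩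
  show ∀ h : Euc (k + 1) → ℝ, ConvexOn ℝ univ h → (∀ y, 0 ≤ h y) →
    ∀ C : Set (Euc (k + 1)), IsCompact C → Convex ℝ C →
    ENNReal.ofReal (2 / (((k + 2 : ℕ) : ℝ) - 1)) *
        ∫⁻ z in C, ENNReal.ofReal (h z * Real.sqrt (1 + ‖gradient h z‖ ^ 2))
      ≤ ∫⁻ y in frontier C, ENNReal.ofReal (‖y‖ ^ 2 + h y ^ 2) ∂(hausdorff k)
  intro h hh h0 C hC hc
  have hm : 2 ≤ k + 1 := by omega
  have hm' : (2 : ℝ) ≤ ((k + 1 : ℕ) : ℝ) := by exact_mod_cast hm
  have hm0 : (0 : ℝ) < ((k + 1 : ℕ) : ℝ) := by linarith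
  set κ : ℝ := 1 / ((k + 1 : ℕ) : ℝ) with hκ
  have hκ0 : 0 < κ := by positivity
  have hκ2 : κ ≤ 1 / 2 := one_div_le_one_div_of_le (by norm_num) hm'
  set J : ℝ≥0∞ := ∫⁻ y in frontier C, ENNReal.ofReal (‖y‖ ^ 2 + h y ^ 2) ∂(hausdorff k) with hJ
  have hdir := fun i : Fin (k + 1) =>
    Pool.Agent.X166.BD.dir_le i hC hc hh h0 hκ0 hκ2
  have hcont : Continuous h := continuousOn_univ.1 (hh.continuousOn isOpen_univ)
  have hmeas : ∀ i : Fin (k + 1), Measurable fun z => ENNReal.ofReal (h z * Real.sqrt (κ ^ 2 +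
        (lineDeriv ℝ h z (EuclideanSpace.single i (1 : ℝ))) ^ 2)) := by
    intro i
    have hld : Measurable fun z => lineDeriv ℝ h z (EuclideanSpace.single i (1 : ℝ)) :=
      measurable_lineDeriv hcont
    exact ENNReal.measurable_ofReal.comp
      (hcont.measurable.mul (((hld.pow_const 2).const_add _).sqrt))
  have hbound : ∫⁻ z in C, ENNReal.ofReal (h z * Real.sqrt (1 + ‖gradient h z‖ ^ 2))
      ≤ ((k + 1 : ℕ) : ℝ≥0∞) * (ENNReal.ofReal (1 / 2) * J) := by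
    calc ∫⁻ z in C, ENNReal.ofReal (h z * Real.sqrt (1 + ‖gradient h z‖ ^ 2))
        ≤ ∫⁻ z in C, ∑ i : Fin (k + 1), ENNReal.ofReal (h z * Real.sqrt (κ ^ 2 +
            (lineDeriv ℝ h z (EuclideanSpace.single i (1 : ℝ))) ^ 2)) := by
          refine lintegral_mono fun z => ?_
          rw [← ENNReal.ofReal_sum_of_nonneg (fun i _ => mul_nonneg (h0 z) (Real.sqrt_nonneg _)),
            ← Finset.mul_sum]
          apply ENNReal.ofReal_le_ofReal
          exact mul_le_mul_of_nonneg_left (gradient_le hm h z) (h0 z)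
      _ = ∑ i : Fin (k + 1), ∫⁻ z in C, ENNReal.ofReal (h z * Real.sqrt (κ ^ 2 +
            (lineDeriv ℝ h z (EuclideanSpace.single i (1 : ℝ))) ^ 2)) :=
          lintegral_finsetSum _ fun i _ => hmeas i
      _ ≤ ∑ _i : Fin (k + 1), ENNReal.ofReal (1 / 2) * J := Finset.sum_le_sum fun i _ => hdir i
      _ = ((k + 1 : ℕ) : ℝ≥0∞) * (ENNReal.ofReal (1 / 2) * J) := by
          rw [Finset.sum_const, Finset.card_univ, Fintype.card_fin, nsmul_eq_mul]
  have hcast : ENNReal.ofReal (2 / (((k + 2 : ℕ) : ℝ) - 1)) * (((k + 1 : ℕ) : ℝ≥0∞)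
      * ENNReal.ofReal (1 / 2)) = 1 := by
    rw [← ENNReal.ofReal_natCast (k + 1), ← ENNReal.ofReal_mul (by positivity),
      ← ENNReal.ofReal_mul (by
        have : ((k + 2 : ℕ) : ℝ) - 1 = ((k + 1 : ℕ) : ℝ) := by push_cast; ring
        rw [this]; positivity)]
    have : ((k + 2 : ℕ) : ℝ) - 1 = ((k + 1 : ℕ) : ℝ) := by push_cast; ring
    rw [this]
    have h2 : 2 / ((k + 1 : ℕ) : ℝ) * (((k + 1 : ℕ) : ℝ) * (1 / 2)) = 1 := by field_simp
    rw [h2, ENNReal.ofReal_one]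
  calc ENNReal.ofReal (2 / (((k + 2 : ℕ) : ℝ) - 1)) *
        ∫⁻ z in C, ENNReal.ofReal (h z * Real.sqrt (1 + ‖gradient h z‖ ^ 2))
      ≤ ENNReal.ofReal (2 / (((k + 2 : ℕ) : ℝ) - 1)) *
        (((k + 1 : ℕ) : ℝ≥0∞) * (ENNReal.ofReal (1 / 2) * J)) := by gcongr
    _ = (ENNReal.ofReal (2 / (((k + 2 : ℕ) : ℝ) - 1)) * (((k + 1 : ℕ) : ℝ≥0∞)
      * ENNReal.ofReal (1 / 2))) * J := by ring
    _ = J := by rw [hcast, one_mul]

end Pool.Agent.Results.MP_e9cb08_gt.AllDimensions
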